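import Pool.Agent.H19.Cob2

set_option autoImplicit false

namespace Pool.Agent.Results.MP_d4a15d_co.Long

open Pool.Agent.H19.Cob

/-- Connected polygonal complexes on `m + 3` vertices, of vertex degree at most 40, whose Cheeger
constants with permutation coefficients are at least `1 / 320` and `1 / 2`. -/
theorem result : ∃ (E P : ℕ → Type) (_ : ∀ m, Fintype (E m)) (_ : ∀ m, Fintype (P m))
    (X : ∀ m, Cx (Fin (m + 3)) (E m) (P m)), ∀ m,
      (X m).Polygonal ∧ (X m).Conn ∧ (∀ v, (X m).deg v ≤ 40) ∧ Nonempty (P m) ∧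
        (∀ e p, (X m).On e p) ∧ (X m).Exp0 (1 / 320) ∧ (X m).Exp1 (1 / 2) := by
  choose P hP X hX using main
  exact ⟨fun m => Ed (m + 3), P, inferInstance, hP, X, hX⟩

end Pool.Agent.Results.MP_d4a15d_co.Long
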